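import Mathlib
import Pool.Agent.X172.Thresholds

set_option autoImplicit false

namespace Pool.Agent.Results.MP_0aef5d_co.WheelVCBelowBlowup

open Pool.Agent.X172.Wheel

/-- For the wheel `W_4` the VC-dimension threshold is strictly smaller than the blowup
threshold. -/
theorem result :
    deltaVC W4 ≤ 49 / 100 ∧ 1 / 2 ≤ deltaB W4 ∧ deltaVC W4 < deltaB W4 ∧
    ¬ ∀ (k : ℕ) (H : SimpleGraph (Fin k)), deltaVC H = deltaB H := by
  have h1 := deltaVC_le
  have h2 := half_le_deltaB
  have h3 : deltaVC W4 < deltaB W4 := by linarith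
  exact ⟨h1, h2, h3, fun h => h3.ne (h 5 W4)⟩

end Pool.Agent.Results.MP_0aef5d_co.WheelVCBelowBlowup
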